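import Pool.Agent.R453.GS.Apg2
import Pool.Agent.R460.GS.Stm

/-!
Project GS (helper460), job APG.
-/

set_option autoImplicit false

namespace Pool.Agent.R453.GS

/-- APG -/
theorem apg_all : Pool.Agent.R460.GS.ApgStm := apg

end Pool.Agent.R453.GS
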