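import Pool.Agent.R453.GS.Wt1
import Pool.Agent.H373R2.T7.LamMaj

/-!
Project GS (helper460), job APG: primes in arithmetic progressions to small moduli.
-/

set_option autoImplicit false

namespace Pool.Agent.R453.GS

open Finset Filter Topology
open Pool.Agent.H442R2.EHI (lis)

/-- primes in progressions to small moduli -/
lemma pap (K U : ℕ) : ∃ x0 : ℕ, ∀ x : ℕ, x0 ≤ x → ∀ r : ℕ, 1 ≤ r → (r : ℝ) ≤ Real.log x ^ K →
    ∀ c : ℕ, c.Coprime r →
      |(((Icc 1 x).filter (fun p => p.Prime ∧ p ≡ c [MOD r])).card : ℝ) - lis x / (Nat.totient r : ℝ)| ≤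
        x / Real.log x ^ U := by
  obtain ⟨B, X0, h0⟩ := H343E.primes_of (U + 1) (H343E.unsmoothed (U + 1 + 2))
  obtain ⟨C, hC⟩ := Pool.Agent.H442R2.EHI.pnt_err (U + 1)
  obtain ⟨x1, h1⟩ := Pool.Agent.H373R2.T7.ev_log' (2 * K + B) 1
  obtain ⟨x2, h2⟩ := Pool.Agent.H373R2.T7.ev_L' (2 * |C| + 2)
  refine ⟨max (max X0 x1) (max x2 2), fun y hy q hq hqy c hcop => ?_⟩
  have hy0 : X0 ≤ y := le_trans (le_trans (le_max_left _ _) (le_max_left _ _)) hy
  have hy1 : x1 ≤ y := le_trans (le_trans (le_max_right _ _) (le_max_left _ _)) hy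
  have hy2 : x2 ≤ y := le_trans (le_trans (le_max_left _ _) (le_max_right _ _)) hy
  have hy3 : 2 ≤ y := le_trans (le_trans (le_max_right _ _) (le_max_right _ _)) hy
  have hyR : (1 : ℝ) ≤ y := by exact_mod_cast (by omega : 1 ≤ y)
  have hL := h2 y hy2
  have hC0 : 0 ≤ |C| := abs_nonneg C
  have hL0 : 0 < Real.log y := by linarith
  have hA := h1 y hy1
  rw [one_mul, pow_add, pow_mul'] at hA
  have hsq : √(y : ℝ) ≤ y := by
    rw [Real.sqrt_le_left (by positivity)]
    nlinarith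
  have hq1 : (1 : ℝ) ≤ q := by exact_mod_cast hq
  have hD2 : (q : ℝ) ^ 2 ≤ 1 * y / Real.log y ^ B := by
    rw [le_div_iff₀ (by positivity), one_mul]
    refine le_trans ?_ (hA.trans hsq)
    gcongr
  have hD1 : (q : ℝ) ≤ y / Real.log y ^ B := by
    rw [one_mul] at hD2
    refine le_trans ?_ hD2
    nlinarith
  have hcc : (c % q).Coprime q := by
    unfold Nat.Coprime
    rw [(Nat.mod_modEq c q).gcd_eq]
    exact hcop
  have h4 := h0 y hy0 1 le_rfl q hD1 hD2 (fun q' => if q' = q then {c % q} else ∅)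
    ⟨fun q' a ha => by
      split_ifs at ha with hh
      · rw [mem_singleton] at ha
        rw [ha, hh]
        exact ⟨Nat.mod_lt _ (by omega), hcc⟩
      · simp at ha, fun q' => by
      split_ifs <;> simp⟩
  rw [one_mul] at h4
  have h5 := single_le_sum (f := fun q' => ∑ a ∈ (if q' = q then ({c % q} : Finset ℕ) else ∅),
    |H343E.piAP y q' a - H343E.pi1 y / (Nat.totient q' : ℝ)|)
    (s := Icc 1 q) (fun i _ => sum_nonneg (fun _ _ => abs_nonneg _)) (mem_Icc.2 ⟨hq, le_rfl⟩)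
  simp only [if_true, sum_singleton] at h5
  have e1 : (((Icc 1 y).filter (fun p => p.Prime ∧ p ≡ c [MOD q])).card : ℝ) = H343E.piAP y q (c % q) := by
    unfold H343E.piAP
    congr 2
    apply filter_congr
    intro n _
    unfold Nat.ModEq
    rw [Nat.mod_mod]
  have e2 : |H343E.pi1 y - lis y| ≤ C * y / Real.log y ^ (U + 1) := hC y hy3
  have hφ : (1 : ℝ) ≤ (Nat.totient q : ℝ) := by exact_mod_cast Nat.totient_pos.2 hq
  have e3 : H343E.piAP y q (c % q) - lis y / (Nat.totient q : ℝ) =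
      (H343E.piAP y q (c % q) - H343E.pi1 y / (Nat.totient q : ℝ)) + (H343E.pi1 y - lis y) / (Nat.totient q : ℝ) := by
    ring
  have e4 : |(H343E.pi1 y - lis y) / (Nat.totient q : ℝ)| ≤ |C| * (y / Real.log y ^ (U + 1)) := by
    rw [abs_div, abs_of_pos (show (0 : ℝ) < (Nat.totient q : ℝ) by linarith)]
    refine (div_le_self (abs_nonneg _) hφ).trans (e2.trans ?_)
    rw [mul_div_assoc]
    exact mul_le_mul_of_nonneg_right (le_abs_self C) (by positivity)
  rw [e1, e3]
  refine (abs_add_le _ _).trans ?_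
  have h6 : |H343E.piAP y q (c % q) - H343E.pi1 y / (Nat.totient q : ℝ)| ≤ y / Real.log y ^ (U + 1) := h5.trans h4
  calc |H343E.piAP y q (c % q) - H343E.pi1 y / (Nat.totient q : ℝ)| + |(H343E.pi1 y - lis y) / (Nat.totient q : ℝ)|
      ≤ (1 + |C|) * (y / Real.log y ^ (U + 1)) := by linarith
    _ = (1 + |C|) / Real.log y * (y / Real.log y ^ U) := by rw [pow_succ]; field_simp
    _ ≤ 1 * (y / Real.log y ^ U) := by
        apply mul_le_mul_of_nonneg_right _ (by positivity)
        rw [div_le_one hL0]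
        linarith
    _ = _ := one_mul _

end Pool.Agent.R453.GS
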