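import Pool.Agent.R453.GS.Apg0

/-!
Project GS (helper460), job APG: the structure of the rough numbers in a residue class.
-/

set_option autoImplicit false

namespace Pool.Agent.R453.GS

open Finset Filter Topology
open Pool.Agent.H442R2.EHI (lis)

/-- the lower bound for the largest prime -/
noncomputable def MM (N m : ℕ) : ℕ := max (m.primeFactors.sup id) (ZZ N)

/-- the rough numbers in a class -/
noncomputable def RR (N r c y : ℕ) : Finset ℕ :=
  (Icc 1 y).filter (fun n => n ≡ c [MOD r] ∧ ∀ p ∈ n.primeFactors, ZZ N < p)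

/-- the primes for a cofactor -/
noncomputable def AA (N r c y m : ℕ) : Finset ℕ :=
  (Ioc (MM N m) (y / m)).filter (fun p => p.Prime ∧ m * p ≡ c [MOD r])

lemma le_sup_pf {m p : ℕ} (h : p ∈ m.primeFactors) : p ≤ m.primeFactors.sup id := Finset.le_sup (f := id) h

/-- prime factors of a product with a large prime -/
lemma sup_mul {m p : ℕ} (hm : m ≠ 0) (hp : p.Prime) (h : m.primeFactors.sup id ≤ p) :
    (m * p).primeFactors.sup id = p := by
  rw [Nat.primeFactors_mul hm hp.ne_zero, hp.primeFactors, sup_union, sup_singleton]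
  exact max_eq_right h

lemma card_ge {N r c y : ℕ} : ∑ m ∈ mm N y, (AA N r c y m).card ≤ (RR N r c y).card := by
  rw [← card_sigma]
  refine card_le_card_of_injOn (fun x => x.1 * x.2) ?_ ?_
  · rintro ⟨m, p⟩ h
    rw [mem_coe, mem_sigma] at h
    obtain ⟨h1, h2⟩ := h
    simp only at h1 h2
    rw [mem_mm] at h1
    unfold AA at h2
    rw [mem_filter, mem_Ioc] at h2
    obtain ⟨⟨h3, h4⟩, h5, h6⟩ := h2
    rw [mem_coe]
    unfold RR
    rw [mem_filter, mem_Icc]
    have hm0 : 0 < m := h1.1.1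
    refine ⟨⟨Nat.mul_pos hm0 h5.pos, ?_⟩, h6, ?_⟩
    · calc m * p ≤ m * (y / m) := Nat.mul_le_mul_left _ h4
        _ ≤ y := Nat.mul_div_le y m
    · intro q hq
      show ZZ N < q
      rw [Nat.primeFactors_mul hm0.ne' h5.ne_zero, h5.primeFactors, mem_union, mem_singleton] at hq
      rcases hq with hq | hq
      · exact h1.2.1 q hq
      · rw [hq]
        exact lt_of_le_of_lt (le_max_right _ _) h3
  · rintro ⟨m, p⟩ h ⟨m', p'⟩ h' heq
    rw [mem_coe, mem_sigma] at h h'
    obtain ⟨h1, h2⟩ := h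
    obtain ⟨h1', h2'⟩ := h'
    simp only at h1 h2 h1' h2' heq
    rw [mem_mm] at h1 h1'
    unfold AA at h2 h2'
    rw [mem_filter, mem_Ioc] at h2 h2'
    have hm0 : m ≠ 0 := by have := h1.1.1; omega
    have hm0' : m' ≠ 0 := by have := h1'.1.1; omega
    have e1 := sup_mul hm0 h2.2.1 ((le_max_left _ _).trans h2.1.1.le)
    have e2 := sup_mul hm0' h2'.2.1 ((le_max_left _ _).trans h2'.1.1.le)
    have e3 : p = p' := by rw [← e1, ← e2, heq]
    subst e3
    have e4 : m = m' := Nat.eq_of_mul_eq_mul_right h2.2.1.pos heq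
    subst e4
    rfl

lemma card_le {N r c y : ℕ} (hZ : 1 ≤ ZZ N) :
    (RR N r c y).card ≤ ∑ m ∈ mm N y, (AA N r c y m).card + 1 + y / ZZ N := by
  rw [← card_sigma]
  have hsub : RR N r c y ⊆ (((mm N y).sigma (fun m => AA N r c y m)).image (fun x => x.1 * x.2) ∪ {1}) ∪
      (Icc 1 (y / ZZ N)).image (fun m => m * m.primeFactors.sup id) := by
    intro n hn
    unfold RR at hn
    rw [mem_filter, mem_Icc] at hn
    obtain ⟨⟨h1, h2⟩, h3, h4⟩ := hn
    rw [mem_union, mem_union]
    rcases Nat.eq_or_lt_of_le h1 with h5 | h5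
    · left; right
      rw [mem_singleton]
      exact h5.symm
    have hne : n.primeFactors.Nonempty := Nat.nonempty_primeFactors.2 h5
    obtain ⟨p, hp, hps⟩ := Finset.exists_mem_eq_sup n.primeFactors hne id
    have hpp : p.Prime := Nat.prime_of_mem_primeFactors hp
    obtain ⟨m, hm⟩ := Nat.dvd_of_mem_primeFactors hp
    have hps' : n.primeFactors.sup id = p := hps
    have hm0 : m ≠ 0 := by
      intro h
      rw [h, mul_zero] at hm
      omega
    have hZp := h4 p hp
    have hmn : m * p = n := by rw [hm, mul_comm]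
    have hsup : m.primeFactors.sup id ≤ p := by
      rw [← hps', hm]
      apply Finset.sup_mono
      rw [Nat.primeFactors_mul hpp.ne_zero hm0]
      exact subset_union_right
    rcases Nat.eq_or_lt_of_le hsup with h6 | h6
    · right
      rw [mem_image]
      refine ⟨m, ?_, by rw [h6]; exact hmn⟩
      rw [mem_Icc]
      refine ⟨Nat.pos_of_ne_zero hm0, ?_⟩
      rw [Nat.le_div_iff_mul_le (by omega)]
      calc m * ZZ N ≤ m * p := Nat.mul_le_mul_left _ hZp.le
        _ ≤ y := by rw [hmn]; exact h2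
    · left; left
      rw [mem_image]
      have hMp : MM N m < p := max_lt h6 hZp
      have hpy : p ≤ y / m := by
        rw [Nat.le_div_iff_mul_le (Nat.pos_of_ne_zero hm0), mul_comm, hmn]
        exact h2
      refine ⟨⟨m, p⟩, ?_, hmn⟩
      rw [mem_sigma]
      refine ⟨?_, ?_⟩
      · show m ∈ mm N y
        rw [mem_mm]
        refine ⟨⟨Nat.pos_of_ne_zero hm0, ?_⟩, ?_, ?_⟩
        · refine le_trans ?_ h2
          rw [← hmn]
          exact Nat.le_mul_of_pos_right _ hpp.pos
        · intro q hq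
          apply h4 q
          rw [hm, Nat.primeFactors_mul hpp.ne_zero hm0]
          exact mem_union_right _ hq
        · calc m * MM N m < m * p := Nat.mul_lt_mul_of_pos_left hMp (Nat.pos_of_ne_zero hm0)
            _ ≤ y := by rw [hmn]; exact h2
      · show p ∈ AA N r c y m
        unfold AA
        rw [mem_filter, mem_Ioc]
        refine ⟨⟨hMp, hpy⟩, hpp, ?_⟩
        rw [hmn]
        exact h3
  refine (card_le_card hsub).trans ?_
  refine (card_union_le _ _).trans ?_
  refine add_le_add ((card_union_le _ _).trans ?_) ?_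
  · rw [card_singleton]
    exact Nat.add_le_add_right card_image_le _
  · refine card_image_le.trans ?_
    rw [Nat.card_Icc, Nat.add_sub_cancel]

/-- no rough numbers in a class which is not coprime to the modulus -/
lemma RR_empty {N r c y : ℕ} (hr : 1 ≤ r) (hrZ : r ≤ ZZ N) (hc : ¬ c.Coprime r) : RR N r c y = ∅ := by
  rw [eq_empty_iff_forall_notMem]
  intro n hn
  unfold RR at hn
  rw [mem_filter, mem_Icc] at hn
  obtain ⟨⟨h1, _⟩, h3, h4⟩ := hn
  obtain ⟨l, hl, hlc, hlr⟩ := Nat.Prime.not_coprime_iff_dvd.1 hc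
  have h5 : l ∣ n := (h3.dvd_iff hlr).2 hlc
  have h6 := h4 l (Nat.mem_primeFactors.2 ⟨hl, h5, by omega⟩)
  have h7 := Nat.le_of_dvd (by omega) hlr
  omega

/-- the inverse class -/
lemma inv_class {m r c : ℕ} (hr : 1 ≤ r) (hm : m.Coprime r) (hc : c.Coprime r) :
    ∃ c' : ℕ, c'.Coprime r ∧ ∀ p : ℕ, m * p ≡ c [MOD r] ↔ p ≡ c' [MOD r] := by
  haveI : NeZero r := ⟨by omega⟩
  set c' : ℕ := ((m : ZMod r)⁻¹ * (c : ZMod r)).val with hc'
  have h1 : m * c' ≡ c [MOD r] := by
    rw [← ZMod.natCast_eq_natCast_iff]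
    push_cast
    rw [hc', ZMod.natCast_zmod_val, ← mul_assoc, ZMod.coe_mul_inv_eq_one m hm, one_mul]
  refine ⟨c', ?_, fun p => ⟨fun h => ?_, fun h => ?_⟩⟩
  · have h2 : (m * c').Coprime r := by
      unfold Nat.Coprime
      rw [h1.gcd_eq]
      exact hc
    exact Nat.Coprime.coprime_mul_left h2
  · exact Nat.ModEq.cancel_left_of_coprime (by rw [Nat.gcd_comm]; exact hm) (h.trans h1.symm)
  · exact (h.mul_left m).trans h1

/-- rough numbers are coprime to small numbers -/
lemma rough_coprime {N r m : ℕ} (hr : 1 ≤ r) (hrZ : r ≤ ZZ N) (hm : 1 ≤ m)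
    (h : ∀ p ∈ m.primeFactors, ZZ N < p) : m.Coprime r := by
  by_contra hcon
  obtain ⟨l, hl, hlm, hlr⟩ := Nat.Prime.not_coprime_iff_dvd.1 hcon
  have h6 := h l (Nat.mem_primeFactors.2 ⟨hl, hlm, by omega⟩)
  have h7 := Nat.le_of_dvd (by omega) hlr
  omega

lemma lis_sub {a b : ℕ} (ha : 1 ≤ a) (h : a ≤ b) : lis b - lis a = ∑ k ∈ Ioc a b, 1 / Real.log k := by
  unfold Pool.Agent.H442R2.EHI.lis
  have e : Icc 2 b = Icc 2 a ∪ Ioc a b := by
    ext x
    simp only [mem_Icc, mem_union, mem_Ioc]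
    omega
  have hd : Disjoint (Icc 2 a) (Ioc a b) := by
    rw [disjoint_left]
    intro x h1 h2
    rw [mem_Icc] at h1
    rw [mem_Ioc] at h2
    omega
  rw [e, sum_union hd]
  ring

/-- comparison of the two sums for one cofactor -/
lemma cmp {m M Y : ℕ} (hm : 1 ≤ m) (hM : 2 ≤ M) (hY : M ≤ Y) :
    ∑ k ∈ Ioc M Y, 1 / Real.log k ≤ ∑ n ∈ Ioc (m * M) (m * Y), 1 / ((m : ℝ) * Real.log ((n : ℝ) / m)) ∧
    ∑ n ∈ Ioc (m * M) (m * Y), 1 / ((m : ℝ) * Real.log ((n : ℝ) / m)) ≤
      ∑ k ∈ Ico M Y, 1 / Real.log k := by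
  have hm0 : (0 : ℝ) < m := by exact_mod_cast hm
  induction Y, hY using Nat.le_induction with
  | base => simp
  | succ Y hY ih =>
    have hYl : 0 < Real.log Y := Real.log_pos (by exact_mod_cast (by omega : 1 < Y))
    have hYl' : 0 < Real.log ((Y + 1 : ℕ) : ℝ) := Real.log_pos (by exact_mod_cast (by omega : 1 < Y + 1))
    have hY0 : (0 : ℝ) < Y := by exact_mod_cast (by omega : 0 < Y)
    have e1 : Ioc M (Y + 1) = insert (Y + 1) (Ioc M Y) := by
      ext x; simp only [mem_Ioc, mem_insert]; omega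
    have e2 : Ico M (Y + 1) = insert Y (Ico M Y) := by
      ext x; simp only [mem_Ico, mem_insert]; omega
    have hmY : m * M ≤ m * Y := Nat.mul_le_mul_left _ hY
    have e3 : Ioc (m * M) (m * (Y + 1)) = Ioc (m * M) (m * Y) ∪ Ioc (m * Y) (m * (Y + 1)) := by
      have : m * Y ≤ m * (Y + 1) := Nat.mul_le_mul_left _ (by omega)
      ext x; simp only [mem_Ioc, mem_union]; omega
    have hd : Disjoint (Ioc (m * M) (m * Y)) (Ioc (m * Y) (m * (Y + 1))) := by
      rw [disjoint_left]
      intro x h1 h2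
      rw [mem_Ioc] at h1 h2
      omega
    have hcard : (Ioc (m * Y) (m * (Y + 1))).card = m := by
      rw [Nat.card_Ioc, Nat.mul_succ]
      omega
    have hb : ∀ n ∈ Ioc (m * Y) (m * (Y + 1)), 1 / ((m : ℝ) * Real.log ((Y + 1 : ℕ) : ℝ)) ≤
        1 / ((m : ℝ) * Real.log ((n : ℝ) / m)) ∧
        1 / ((m : ℝ) * Real.log ((n : ℝ) / m)) ≤ 1 / ((m : ℝ) * Real.log Y) := by
      intro n hn
      rw [mem_Ioc] at hn
      have h1 : (Y : ℝ) ≤ (n : ℝ) / m := by
        rw [le_div_iff₀ hm0]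
        have : ((m * Y : ℕ) : ℝ) ≤ n := by exact_mod_cast hn.1.le
        push_cast at this
        linarith
      have h2 : (n : ℝ) / m ≤ ((Y + 1 : ℕ) : ℝ) := by
        rw [div_le_iff₀ hm0]
        have : (n : ℝ) ≤ ((m * (Y + 1) : ℕ) : ℝ) := by exact_mod_cast hn.2
        push_cast at this ⊢
        linarith
      have h3 := Real.log_le_log hY0 h1
      have h4 := Real.log_le_log (by linarith) h2
      constructor
      · apply one_div_le_one_div_of_le (by nlinarith)
        exact mul_le_mul_of_nonneg_left h4 hm0.le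
      · apply one_div_le_one_div_of_le (by positivity)
        exact mul_le_mul_of_nonneg_left h3 hm0.le
    have hm1 : ∀ x : ℝ, (m : ℝ) * (1 / ((m : ℝ) * x)) = 1 / x := by
      intro x
      rcases eq_or_ne x 0 with h | h
      · rw [h]; simp
      · field_simp
    have hlo : 1 / Real.log ((Y + 1 : ℕ) : ℝ) ≤
        ∑ n ∈ Ioc (m * Y) (m * (Y + 1)), 1 / ((m : ℝ) * Real.log ((n : ℝ) / m)) := by
      have h := card_nsmul_le_sum _ _ _ fun n hn => (hb n hn).1
      rw [hcard, nsmul_eq_mul, hm1] at h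
      exact h
    have hup : ∑ n ∈ Ioc (m * Y) (m * (Y + 1)), 1 / ((m : ℝ) * Real.log ((n : ℝ) / m)) ≤ 1 / Real.log Y := by
      have h := sum_le_card_nsmul _ _ _ fun n hn => (hb n hn).2
      rw [hcard, nsmul_eq_mul, hm1] at h
      exact h
    rw [e1, e2, e3, sum_union hd, sum_insert (by simp), sum_insert (by simp)]
    constructor
    · linarith [ih.1]
    · linarith [ih.2]

/-- the two sums for one cofactor -/
lemma cmp2 {m M y : ℕ} (hm : 1 ≤ m) (hM : 2 ≤ M) (hy : m * M < y) :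
    |∑ n ∈ Ioc (m * M) y, 1 / ((m : ℝ) * Real.log ((n : ℝ) / m)) - ∑ k ∈ Ioc M (y / m), 1 / Real.log k| ≤
      2 / Real.log M := by
  have hm0 : (0 : ℝ) < m := by exact_mod_cast hm
  have hY : M ≤ y / m := by
    rw [Nat.le_div_iff_mul_le hm, mul_comm]
    exact hy.le
  obtain ⟨h1, h2⟩ := cmp hm hM hY
  have hMl : 0 < Real.log M := Real.log_pos (by exact_mod_cast (by omega : 1 < M))
  have hdm : m * (y / m) ≤ y := Nat.mul_div_le y m
  have hmod : y < m * (y / m) + m := by
    have := Nat.div_add_mod y m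
    have := Nat.mod_lt y hm
    omega
  have hmM : m * M ≤ m * (y / m) := Nat.mul_le_mul_left _ hY
  have e1 : Ioc (m * M) y = Ioc (m * M) (m * (y / m)) ∪ Ioc (m * (y / m)) y := by
    ext x; simp only [mem_Ioc, mem_union]; omega
  have hd : Disjoint (Ioc (m * M) (m * (y / m))) (Ioc (m * (y / m)) y) := by
    rw [disjoint_left]
    intro x h1 h2
    rw [mem_Ioc] at h1 h2
    omega
  have hlast : ∀ n ∈ Ioc (m * (y / m)) y, 0 ≤ 1 / ((m : ℝ) * Real.log ((n : ℝ) / m)) ∧
      1 / ((m : ℝ) * Real.log ((n : ℝ) / m)) ≤ 1 / ((m : ℝ) * Real.log M) := by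
    intro n hn
    rw [mem_Ioc] at hn
    have h3 : (M : ℝ) ≤ (n : ℝ) / m := by
      rw [le_div_iff₀ hm0]
      have : ((m * M : ℕ) : ℝ) ≤ n := by exact_mod_cast (by omega : m * M ≤ n)
      push_cast at this
      linarith
    have hM0 : (0 : ℝ) < M := by exact_mod_cast (by omega : 0 < M)
    have h4 := Real.log_le_log hM0 h3
    have h5 : 0 < Real.log ((n : ℝ) / m) := by linarith
    refine ⟨by positivity, ?_⟩
    apply one_div_le_one_div_of_le (by positivity)
    exact mul_le_mul_of_nonneg_left h4 hm0.le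
  have hcard : (Ioc (m * (y / m)) y).card ≤ m := by
    rw [Nat.card_Ioc]
    omega
  have hl0 : 0 ≤ ∑ n ∈ Ioc (m * (y / m)) y, 1 / ((m : ℝ) * Real.log ((n : ℝ) / m)) :=
    sum_nonneg fun n hn => (hlast n hn).1
  have hl1 : ∑ n ∈ Ioc (m * (y / m)) y, 1 / ((m : ℝ) * Real.log ((n : ℝ) / m)) ≤ 1 / Real.log M := by
    refine (sum_le_card_nsmul _ _ _ fun n hn => (hlast n hn).2).trans ?_
    rw [nsmul_eq_mul]
    calc ((Ioc (m * (y / m)) y).card : ℝ) * (1 / ((m : ℝ) * Real.log M))
        ≤ (m : ℝ) * (1 / ((m : ℝ) * Real.log M)) :=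
          mul_le_mul_of_nonneg_right (by exact_mod_cast hcard) (by positivity)
      _ = 1 / Real.log M := by field_simp
  have hico : ∑ k ∈ Ico M (y / m), 1 / Real.log k ≤ 1 / Real.log M + ∑ k ∈ Ioc M (y / m), 1 / Real.log k := by
    have hsub : Ico M (y / m) ⊆ insert M (Ioc M (y / m)) := by
      intro x hx
      rw [mem_Ico] at hx
      rw [mem_insert, mem_Ioc]
      omega
    refine (sum_le_sum_of_subset_of_nonneg hsub fun x hx _ => ?_).trans ?_
    · have := Real.log_natCast_nonneg x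
      positivity
    · rw [sum_insert (by simp)]
  rw [e1, sum_union hd, abs_le]
  have e2 : 2 / Real.log M = 1 / Real.log M + 1 / Real.log M := by ring
  have h0 : 0 < 1 / Real.log M := by positivity
  rw [e2]
  constructor <;> linarith

end Pool.Agent.R453.GS
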