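import Mathlib
import Pool.Agent.Helper923.HMertens

/-!
Project GS (helper460), jobs WTB and WTD: the density of the rough numbers.
-/

set_option autoImplicit false

namespace Pool.Agent.R453.GS

open Finset Filter Topology

lemma ev_log (a : ℝ) : ∀ᶠ N : ℕ in atTop, a ≤ Real.log N :=
  (Real.tendsto_log_atTop.comp tendsto_natCast_atTop_atTop).eventually_ge_atTop a

/-- the logarithm of the integer part of a power -/
lemma log_floor {γ : ℝ} (hγ : 0 < γ) {N : ℕ} (hN : 2 ≤ N) :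
    1 ≤ ⌊(N : ℝ) ^ γ⌋₊ ∧ Real.log (⌊(N : ℝ) ^ γ⌋₊ : ℝ) ≤ γ * Real.log N ∧
      γ * Real.log N - 1 ≤ Real.log (⌊(N : ℝ) ^ γ⌋₊ : ℝ) := by
  have hN0 : (0 : ℝ) < N := by exact_mod_cast (by omega : 0 < N)
  have hN1 : (1 : ℝ) ≤ N := by exact_mod_cast (by omega : 1 ≤ N)
  have h1 : (1 : ℝ) ≤ (N : ℝ) ^ γ := Real.one_le_rpow hN1 hγ.le
  have h2 : 1 ≤ ⌊(N : ℝ) ^ γ⌋₊ := (Nat.one_le_floor_iff _).2 h1
  have h3 : (1 : ℝ) ≤ (⌊(N : ℝ) ^ γ⌋₊ : ℝ) := by exact_mod_cast h2
  have h4 : (⌊(N : ℝ) ^ γ⌋₊ : ℝ) ≤ (N : ℝ) ^ γ := Nat.floor_le (by linarith)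
  have h5 : (N : ℝ) ^ γ < (⌊(N : ℝ) ^ γ⌋₊ : ℝ) + 1 := Nat.lt_floor_add_one _
  refine ⟨h2, ?_, ?_⟩
  · rw [← Real.log_rpow hN0]
    exact Real.log_le_log (by linarith) h4
  · rw [← Real.log_rpow hN0]
    have h6 : (N : ℝ) ^ γ ≤ 2 * (⌊(N : ℝ) ^ γ⌋₊ : ℝ) := by linarith
    have h7 := Real.log_le_log (by linarith) h6
    rw [Real.log_mul (by norm_num) (by linarith)] at h7
    have := Real.log_two_lt_d9
    linarith

/-- sums of `1/p` between powers of `N` -/
lemma sum_pow {α β : ℝ} (hα : 0 < α) (hαβ : α ≤ β) {ε : ℝ} (hε : 0 < ε) :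
    ∀ᶠ N : ℕ in atTop, ∑ p ∈ (Ioc ⌊(N : ℝ) ^ α⌋₊ ⌊(N : ℝ) ^ β⌋₊).filter Nat.Prime, (1 : ℝ) / p ≤
      Real.log (β / α) + ε := by
  obtain ⟨C, hC0, hC⟩ := Pool.Agent.Helper923.HMertens.mertens_ratio
  filter_upwards [ev_log (((C + 1) / ε + 3) / α), eventually_ge_atTop 2] with N hL hN
  obtain ⟨a1, a2, a3⟩ := log_floor hα hN
  obtain ⟨b1, b2, b3⟩ := log_floor (hα.trans_le hαβ) hN
  have hN1 : (1 : ℝ) ≤ N := by exact_mod_cast (by omega : 1 ≤ N)
  have hab : ⌊(N : ℝ) ^ α⌋₊ ≤ ⌊(N : ℝ) ^ β⌋₊ :=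
    Nat.floor_le_floor (Real.rpow_le_rpow_of_exponent_le hN1 hαβ)
  have hL' : (C + 1) / ε + 3 ≤ α * Real.log N := by
    rw [div_le_iff₀ hα] at hL
    linarith
  have hCe : 0 ≤ (C + 1) / ε := by positivity
  set la := Real.log (⌊(N : ℝ) ^ α⌋₊ : ℝ) with hla
  set lb := Real.log (⌊(N : ℝ) ^ β⌋₊ : ℝ) with hlb
  have hla1 : (C + 1) / ε + 2 ≤ la := by linarith
  have hla0 : 0 < la := by linarith
  have h2 : 2 ≤ ⌊(N : ℝ) ^ α⌋₊ := by
    by_contra hcon
    have h3 : ⌊(N : ℝ) ^ α⌋₊ = 1 := by omega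
    rw [h3] at hla
    rw [Nat.cast_one, Real.log_one] at hla
    linarith
  have h := (abs_le.1 (hC _ _ h2 hab)).2
  rw [← hla, ← hlb] at h
  have hβ : 0 < β := hα.trans_le hαβ
  have hL0 : 0 < Real.log N := by
    by_contra hcon
    push Not at hcon
    nlinarith
  have hla2 : la ≤ lb := Real.log_le_log (by exact_mod_cast (by omega : 0 < ⌊(N : ℝ) ^ α⌋₊)) (by exact_mod_cast hab)
  have e1 : Real.log (lb / la) ≤ Real.log (β / α) + 1 / la := by
    have g1 : lb / la ≤ β / α * (1 + 1 / la) := by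
      rw [div_le_iff₀ hla0]
      have g2 : β / α * (1 + 1 / la) * la = β / α * (la + 1) := by
        field_simp
      rw [g2]
      calc lb ≤ β * Real.log N := b2
        _ = β / α * (α * Real.log N) := by field_simp
        _ ≤ β / α * (la + 1) := mul_le_mul_of_nonneg_left (by linarith) (by positivity)
    have g3 : 0 < lb / la := div_pos (by linarith) hla0
    refine (Real.log_le_log g3 g1).trans ?_
    rw [Real.log_mul (by positivity) (by positivity)]
    have g4 : Real.log (1 + 1 / la) ≤ 1 / la := by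
      have := Real.log_le_sub_one_of_pos (show 0 < 1 + 1 / la by positivity)
      linarith
    linarith
  have e2 : (C + 1) / la ≤ ε := by
    rw [div_le_iff₀ hla0]
    have g1 : (C + 1) / ε * ε = C + 1 := by field_simp
    nlinarith
  have e3 : (C + 1) / la = C / la + 1 / la := by ring
  linarith

lemma exp_ge (x : ℝ) (hx : 0 ≤ x) : 1 + x + x ^ 2 / 2 + x ^ 3 / 6 + x ^ 4 / 24 ≤ Real.exp x := by
  have h := Real.sum_le_exp_of_nonneg hx 5
  simp only [Finset.sum_range_succ, Finset.sum_range_zero, Nat.factorial] at h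
  norm_num at h
  linarith

lemma log_num {x y : ℝ} (hx : 0 < x) (hy : 0 ≤ y)
    (h : x ≤ 1 + y + y ^ 2 / 2 + y ^ 3 / 6 + y ^ 4 / 24) : Real.log x ≤ y := by
  rw [Real.log_le_iff_le_exp hx]
  exact h.trans (exp_ge y hy)

lemma log76 : Real.log (0.35 / 0.3) ≤ 0.15416 := log_num (by norm_num) (by norm_num) (by norm_num)
lemma log87 : Real.log (0.4 / 0.35) ≤ 0.13354 := log_num (by norm_num) (by norm_num) (by norm_num)
lemma log98 : Real.log (0.45 / 0.4) ≤ 0.11779 := log_num (by norm_num) (by norm_num) (by norm_num)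
lemma log109 : Real.log (0.5 / 0.45) ≤ 0.10537 := log_num (by norm_num) (by norm_num) (by norm_num)
lemma log103 : Real.log (1 / 0.3) ≤ 2 := log_num (by norm_num) (by norm_num) (by norm_num)

/-- total variation of a function which jumps up once and decreases afterwards -/
lemma tv {f : ℕ → ℝ} {n0 : ℕ} {B : ℝ} (hB : 0 ≤ B) (h0 : ∀ n, 0 ≤ f n) (h1 : ∀ n, n ≤ n0 → f n = 0)
    (h2 : ∀ n, n0 < n → f (n + 1) ≤ f n) (h3 : ∀ n, f n ≤ B) (N : ℕ) :
    ∑ n ∈ range N, |f (n + 1) - f n| ≤ 2 * B - f N := by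
  have key : (N ≤ n0 → ∑ n ∈ range N, |f (n + 1) - f n| ≤ 0) ∧
      (n0 < N → ∑ n ∈ range N, |f (n + 1) - f n| ≤ 2 * B - f N) := by
    induction N with
    | zero =>
      refine ⟨fun _ => by simp, fun h => by omega⟩
    | succ N ih =>
      rw [sum_range_succ]
      refine ⟨fun h => ?_, fun h => ?_⟩
      · rw [h1 (N + 1) h, h1 N (by omega), sub_zero, abs_zero, add_zero]
        exact ih.1 (by omega)
      · rcases Nat.lt_or_ge n0 N with h4 | h4
        · have h5 := h2 N h4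
          rw [abs_of_nonpos (by linarith)]
          have := ih.2 h4
          linarith
        · have h5 := ih.1 h4
          rw [h1 N h4, sub_zero, abs_of_nonneg (h0 _)]
          have := h3 (N + 1)
          linarith
  rcases Nat.lt_or_ge n0 N with h4 | h4
  · exact key.2 h4
  · refine (key.1 h4).trans ?_
    have := h3 N
    linarith

end Pool.Agent.R453.GS
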