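import Pool.Agent.R453.GS.Wt0

/-!
Project GS (helper460), jobs WTB and WTD: the density of the rough numbers.
-/

set_option autoImplicit false

namespace Pool.Agent.R453.GS

open Finset Filter Topology

/-- `N ^ (3 / 10)` -/
noncomputable def ZZ (N : ℕ) : ℕ := ⌊(N : ℝ) ^ (3 / 10 : ℝ)⌋₊

noncomputable def mm (N n : ℕ) : Finset ℕ :=
  (Icc 1 n).filter (fun m => (∀ p ∈ m.primeFactors, ZZ N < p) ∧ m * max (m.primeFactors.sup id) (ZZ N) < n)

/-- the local density of `gr` -/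
noncomputable def Wt (N n : ℕ) : ℝ := Real.log N * ∑ m ∈ mm N n, 1 / ((m : ℝ) * Real.log ((n : ℝ) / m))

/-- WTB: the density is bounded and of bounded variation -/
def WtbStm : Prop := ∃ (c : ℝ) (N₀ : ℕ), ∀ N : ℕ, N₀ ≤ N →
  (∀ n : ℕ, 0 ≤ Wt N n) ∧ (∀ n : ℕ, n ≤ N → Wt N n ≤ c) ∧
  ∑ n ∈ range N, |Wt N (n + 1) - Wt N n| ≤ c

/-- WTD: upper bound for the density -/
def WtdStm : Prop := ∀ B : ℕ, ∃ N₀ : ℕ, ∀ N : ℕ, N₀ ≤ N → ∀ n : ℕ, n ≤ N → (N : ℝ) / Real.log N ^ B ≤ n →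
  1 ≤ Wt N n ∧ Wt N n ≤ 197 / 100

lemma mem_mm {N n m : ℕ} : m ∈ mm N n ↔ (1 ≤ m ∧ m ≤ n) ∧ (∀ p ∈ m.primeFactors, ZZ N < p) ∧
    m * max (m.primeFactors.sup id) (ZZ N) < n := by
  unfold mm
  rw [mem_filter, mem_Icc]

/-- the ratio -/
lemma ratio {N n m : ℕ} (_hZ : 1 ≤ ZZ N) (hm : m ∈ mm N n) : 1 ≤ m ∧ 1 ≤ n ∧ ((ZZ N : ℕ) : ℝ) < (n : ℝ) / m := by
  rw [mem_mm] at hm
  obtain ⟨⟨h1, h2⟩, _, h3⟩ := hm
  refine ⟨h1, by omega, ?_⟩
  have h4 : m * ZZ N < n := lt_of_le_of_lt (Nat.mul_le_mul_left _ (le_max_right _ _)) h3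
  have h5 : (0 : ℝ) < m := by exact_mod_cast h1
  rw [lt_div_iff₀ h5]
  have h6 : ((m * ZZ N : ℕ) : ℝ) < n := by exact_mod_cast h4
  push_cast at h6
  linarith

/-- large `N` -/
structure Big (N : ℕ) : Prop where
  two : 2 ≤ N
  Z2 : 2 ≤ ZZ N
  L : 0 < Real.log N
  Zl : (1 / 4 : ℝ) * Real.log N ≤ Real.log (ZZ N)
  Z4 : (N : ℝ) < ((ZZ N + 1 : ℕ) : ℝ) ^ 4

lemma big : ∀ᶠ N : ℕ in atTop, Big N := by
  filter_upwards [ev_log 40, eventually_ge_atTop 2] with N hL hN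
  obtain ⟨a1, a2, a3⟩ := log_floor (γ := 3 / 10) (by norm_num) hN
  have hN0 : (0 : ℝ) < N := by exact_mod_cast (by omega : 0 < N)
  have hN1 : (1 : ℝ) < N := by exact_mod_cast (by omega : 1 < N)
  have hL0 : 0 < Real.log N := by linarith
  have hZl : (1 / 4 : ℝ) * Real.log N ≤ Real.log (ZZ N) := by
    unfold ZZ
    linarith
  refine ⟨hN, ?_, hL0, hZl, ?_⟩
  · by_contra hcon
    have h1 : ZZ N = 1 := by unfold ZZ at *; omega
    rw [h1, Nat.cast_one, Real.log_one] at hZl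
    linarith
  · have h1 : (N : ℝ) ^ (3 / 10 : ℝ) < ((ZZ N + 1 : ℕ) : ℝ) := by
      push_cast
      exact Nat.lt_floor_add_one _
    have h2 : ((N : ℝ) ^ (3 / 10 : ℝ)) ^ (4 : ℕ) < ((ZZ N + 1 : ℕ) : ℝ) ^ 4 :=
      pow_lt_pow_left₀ h1 (Real.rpow_nonneg hN0.le _) (by norm_num)
    refine lt_trans ?_ h2
    rw [← Real.rpow_natCast, ← Real.rpow_mul hN0.le]
    nth_rewrite 1 [← Real.rpow_one (N : ℝ)]
    exact Real.rpow_lt_rpow_of_exponent_lt hN1 (by norm_num)

/-- at most two prime factors -/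
lemma shape {N n m : ℕ} (hB : Big N) (hn : n ≤ N) (hm : m ∈ mm N n) :
    m = 1 ∨ (m.Prime ∧ ZZ N < m ∧ m * m < n) ∨
      (∃ p q : ℕ, m = p * q ∧ m.minFac = p ∧ p.Prime ∧ q.Prime ∧ ZZ N < p ∧ ZZ N < q ∧ p ≤ q ∧ p * q * q < n) := by
  rw [mem_mm] at hm
  obtain ⟨⟨h1, h2⟩, h3, h4⟩ := hm
  have hsup : ∀ p ∈ m.primeFactors, m * p < n := by
    intro p hp
    refine lt_of_le_of_lt ?_ h4
    refine Nat.mul_le_mul_left _ (le_trans ?_ (le_max_left _ _))
    exact Finset.le_sup (f := id) hp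
  rcases Nat.eq_or_lt_of_le h1 with h5 | h5
  · exact Or.inl h5.symm
  right
  have hm1 : m ≠ 1 := by omega
  have hp := Nat.minFac_prime hm1
  have hpm : m.minFac ∈ m.primeFactors := Nat.mem_primeFactors.2 ⟨hp, Nat.minFac_dvd m, by omega⟩
  obtain ⟨q, hq⟩ := Nat.minFac_dvd m
  have hZp := h3 _ hpm
  have hq0 : 0 < q := by
    rcases Nat.eq_zero_or_pos q with h | h
    · rw [h, mul_zero] at hq
      omega
    · exact h
  rcases Nat.eq_or_lt_of_le (Nat.succ_le_of_lt hq0) with h6 | h6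
  · left
    have h7 : q = 1 := by omega
    rw [h7, mul_one] at hq
    have h8 : m.Prime := by rw [hq]; exact hp
    exact ⟨h8, by rw [hq]; exact hZp, hsup m (Nat.mem_primeFactors.2 ⟨h8, dvd_rfl, by omega⟩)⟩
  · right
    have hqp : q.Prime := by
      by_contra hcon
      have hq1 : q ≠ 1 := by omega
      have hr := Nat.minFac_prime hq1
      obtain ⟨s, hs⟩ := Nat.minFac_dvd q
      have hs1 : s ≠ 1 := by
        intro h
        rw [h, mul_one] at hs
        exact hcon (by rw [hs]; exact hr)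
      have hs0 : s ≠ 0 := by
        intro h
        rw [h, mul_zero] at hs
        omega
      have hu := Nat.minFac_prime hs1
      have hrm : q.minFac ∈ m.primeFactors := Nat.mem_primeFactors.2
        ⟨hr, (Nat.minFac_dvd q).trans (Dvd.intro_left _ hq.symm), by omega⟩
      have hum : s.minFac ∈ m.primeFactors := Nat.mem_primeFactors.2
        ⟨hu, ((Nat.minFac_dvd s).trans (Dvd.intro_left _ hs.symm)).trans (Dvd.intro_left _ hq.symm), by omega⟩
      have g1 := h3 _ hrm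
      have g2 := h3 _ hum
      have g3 := hsup _ hum
      have g4 : s.minFac ≤ s := Nat.minFac_le (Nat.pos_of_ne_zero hs0)
      have g5 : (ZZ N + 1) ^ 3 ≤ m := by
        rw [hq, hs]
        calc (ZZ N + 1) ^ 3 = (ZZ N + 1) * ((ZZ N + 1) * (ZZ N + 1)) := by ring
          _ ≤ m.minFac * (q.minFac * s) := Nat.mul_le_mul hZp (Nat.mul_le_mul g1 (by omega))
      have g6 : (ZZ N + 1) ^ 4 ≤ m * s.minFac := by
        calc (ZZ N + 1) ^ 4 = (ZZ N + 1) ^ 3 * (ZZ N + 1) := by ring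
          _ ≤ m * s.minFac := Nat.mul_le_mul g5 g2
      have g7 : (N : ℝ) < (((ZZ N + 1) ^ 4 : ℕ) : ℝ) := by
        have := hB.Z4
        push_cast at this ⊢
        exact this
      have g8 : N < (ZZ N + 1) ^ 4 := by exact_mod_cast g7
      omega
    have hqm : q ∈ m.primeFactors := Nat.mem_primeFactors.2 ⟨hqp, Dvd.intro_left _ hq.symm, by omega⟩
    refine ⟨m.minFac, q, hq, rfl, hp, hqp, hZp, h3 _ hqm, ?_, ?_⟩
    · exact Nat.minFac_le_of_dvd hqp.two_le (Dvd.intro_left _ hq.symm)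
    · have := hsup q hqm
      rw [← hq]
      exact this

/-- the primes between two powers -/
noncomputable def PP (a b : ℝ) (N : ℕ) : Finset ℕ := (Ioc ⌊(N : ℝ) ^ a⌋₊ ⌊(N : ℝ) ^ b⌋₊).filter Nat.Prime

noncomputable def SP (a b : ℝ) (N : ℕ) : ℝ := ∑ p ∈ PP a b N, (1 : ℝ) / p

lemma SP_nonneg (a b : ℝ) (N : ℕ) : 0 ≤ SP a b N := sum_nonneg fun _ _ => by positivity

/-- the pair of the factors -/
def fac (m : ℕ) : ℕ × ℕ := (m.minFac, m / m.minFac)

lemma fac_mul (m : ℕ) : (fac m).1 * (fac m).2 = m := Nat.mul_div_cancel' (Nat.minFac_dvd m)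

lemma fac_inj : Function.Injective fac := by
  intro a b h
  rw [← fac_mul a, ← fac_mul b, h]

lemma sum_inv_le {N n : ℕ} (hB : Big N) (hn : n ≤ N) :
    ∑ m ∈ mm N n, (1 : ℝ) / m ≤ (1 + SP (3 / 10) 1 N) ^ 2 := by
  have hN1 : ⌊(N : ℝ) ^ (1 : ℝ)⌋₊ = N := by rw [Real.rpow_one, Nat.floor_natCast]
  have hmem : ∀ p : ℕ, p.Prime → ZZ N < p → p ≤ N → p ∈ insert 1 (PP (3 / 10) 1 N) := by
    intro p hp h1 h2
    apply mem_insert_of_mem
    unfold PP
    rw [mem_filter, mem_Ioc, hN1]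
    exact ⟨⟨h1, h2⟩, hp⟩
  have himg : (mm N n).image fac ⊆ (insert 1 (PP (3 / 10) 1 N)) ×ˢ (insert 1 (PP (3 / 10) 1 N)) := by
    intro x hx
    rw [mem_image] at hx
    obtain ⟨m, hm, rfl⟩ := hx
    have hmn : m ≤ N := (mem_mm.1 hm).1.2.trans hn
    rw [mem_product]
    rcases shape hB hn hm with h | ⟨h1, h2, h3⟩ | ⟨p, q, h1, h2, h3, h4, h5, h6, h7, h8⟩
    · subst h
      simp [fac]
    · have e : fac m = (m, 1) := by
        unfold fac
        rw [h1.minFac_eq, Nat.div_self h1.pos]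
      rw [e]
      exact ⟨hmem m h1 h2 hmn, mem_insert_self _ _⟩
    · have e : fac m = (p, q) := by
        unfold fac
        rw [h2, h1, Nat.mul_div_cancel_left _ h3.pos]
      rw [e]
      have hp : p ≤ m := by rw [h1]; exact Nat.le_mul_of_pos_right _ h4.pos
      have hq : q ≤ m := by rw [h1]; exact Nat.le_mul_of_pos_left _ h3.pos
      exact ⟨hmem p h3 h5 (hp.trans hmn), hmem q h4 h6 (hq.trans hmn)⟩
  have h1 : ∑ m ∈ mm N n, (1 : ℝ) / m = ∑ x ∈ (mm N n).image fac, (1 : ℝ) / x.1 * (1 / x.2) := by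
    rw [sum_image (fun a _ b _ h => fac_inj h)]
    apply sum_congr rfl
    intro m _
    rw [one_div_mul_one_div, ← Nat.cast_mul, fac_mul]
  rw [h1]
  refine (sum_le_sum_of_subset_of_nonneg himg fun _ _ _ => by positivity).trans ?_
  rw [sum_product]
  simp_rw [← mul_sum]
  rw [← sum_mul]
  have h2 : ∑ i ∈ insert 1 (PP (3 / 10) 1 N), (1 : ℝ) / i = 1 + SP (3 / 10) 1 N := by
    rw [sum_insert]
    · unfold SP
      simp
    · intro h
      unfold PP at h
      rw [mem_filter] at h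
      exact Nat.not_prime_one h.2
  rw [h2, sq]

/-- one summand -/
noncomputable def hh (N m n : ℕ) : ℝ := if m ∈ mm N n then Real.log N * (1 / ((m : ℝ) * Real.log ((n : ℝ) / m))) else 0

lemma term_bd {N n m : ℕ} (hB : Big N) (hm : m ∈ mm N n) :
    0 ≤ Real.log N * (1 / ((m : ℝ) * Real.log ((n : ℝ) / m))) ∧
      Real.log N * (1 / ((m : ℝ) * Real.log ((n : ℝ) / m))) ≤ 4 / m := by
  obtain ⟨h1, h2, h3⟩ := ratio (by have := hB.Z2; omega) hm
  have hZ : (2 : ℝ) ≤ ZZ N := by exact_mod_cast hB.Z2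
  have hL := hB.L
  have hm0 : (0 : ℝ) < m := by exact_mod_cast h1
  have h4 : Real.log N / 4 ≤ Real.log ((n : ℝ) / m) := by
    have := Real.log_le_log (by linarith) h3.le
    have := hB.Zl
    linarith
  have h5 : 0 < Real.log ((n : ℝ) / m) := by linarith
  refine ⟨by positivity, ?_⟩
  rw [mul_one_div, div_le_div_iff₀ (by positivity) hm0]
  nlinarith

lemma hh_nonneg {N : ℕ} (hB : Big N) (m n : ℕ) : 0 ≤ hh N m n := by
  unfold hh
  split_ifs with h
  · exact (term_bd hB h).1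
  · exact le_rfl

lemma hh_le {N : ℕ} (hB : Big N) (m n : ℕ) : hh N m n ≤ 4 / m := by
  unfold hh
  split_ifs with h
  · exact (term_bd hB h).2
  · positivity

lemma Wt_eq {N n : ℕ} (hn : n ≤ N) : Wt N n = ∑ m ∈ mm N N, hh N m n := by
  unfold Wt hh
  rw [← sum_filter, mul_sum]
  apply sum_congr _ fun _ _ => rfl
  ext m
  rw [mem_filter]
  constructor
  · intro h
    refine ⟨?_, h⟩
    rw [mem_mm] at h ⊢
    exact ⟨⟨h.1.1, h.1.2.trans hn⟩, h.2.1, lt_of_lt_of_le h.2.2 hn⟩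
  · exact fun h => h.2

theorem wtb : WtbStm := by
  have hev := (big.and (sum_pow (α := 3 / 10) (β := 1) (by norm_num) (by norm_num) (ε := 1) one_pos))
  obtain ⟨N₀, hN₀⟩ := eventually_atTop.1 hev
  refine ⟨128, N₀, fun N hN => ?_⟩
  obtain ⟨hB, hS⟩ := hN₀ N hN
  have hS' : SP (3 / 10) 1 N ≤ 3 := by
    have h1 := log103
    have e : (0.3 : ℝ) = 3 / 10 := by norm_num
    rw [e] at h1
    unfold SP PP
    linarith
  have hS0 := SP_nonneg (3 / 10) 1 N
  have hsq : (1 + SP (3 / 10) 1 N) ^ 2 ≤ 16 := by nlinarith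
  refine ⟨fun n => ?_, fun n hn => ?_, ?_⟩
  · unfold Wt
    refine mul_nonneg hB.L.le (sum_nonneg fun m hm => ?_)
    obtain ⟨h1, h2, h3⟩ := ratio (by have := hB.Z2; omega) hm
    have hZ : (2 : ℝ) ≤ ZZ N := by exact_mod_cast hB.Z2
    have : 0 ≤ Real.log ((n : ℝ) / m) := Real.log_nonneg (by linarith)
    positivity
  · unfold Wt
    rw [mul_sum]
    calc ∑ m ∈ mm N n, Real.log N * (1 / ((m : ℝ) * Real.log ((n : ℝ) / m)))
        ≤ ∑ m ∈ mm N n, 4 * ((1 : ℝ) / m) := sum_le_sum fun m hm => by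
          rw [show 4 * ((1 : ℝ) / m) = 4 / m by ring]
          exact (term_bd hB hm).2
      _ = 4 * ∑ m ∈ mm N n, (1 : ℝ) / m := by rw [mul_sum]
      _ ≤ 4 * 16 := mul_le_mul_of_nonneg_left ((sum_inv_le hB hn).trans hsq) (by norm_num)
      _ ≤ 128 := by norm_num
  · have hm : ∀ m ∈ mm N N, ∑ n ∈ range N, |hh N m (n + 1) - hh N m n| ≤ 8 * ((1 : ℝ) / m) := by
      intro m hm
      rw [mem_mm] at hm
      obtain ⟨⟨h1, h2⟩, h3, h4⟩ := hm
      have hM : 2 ≤ max (m.primeFactors.sup id) (ZZ N) := hB.Z2.trans (le_max_right _ _)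
      have h5 := tv (f := fun n => hh N m n) (n0 := m * max (m.primeFactors.sup id) (ZZ N))
        (B := 4 / m) (by positivity) (hh_nonneg hB m) (fun n hn => by
          show hh N m n = 0
          unfold hh
          rw [if_neg]
          intro h
          rw [mem_mm] at h
          omega) (fun n hn => by
          show hh N m (n + 1) ≤ hh N m n
          have g1 : m * 2 ≤ m * max (m.primeFactors.sup id) (ZZ N) := Nat.mul_le_mul_left _ hM
          have g2 : m ∈ mm N n := mem_mm.2 ⟨⟨h1, by omega⟩, h3, hn⟩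
          have g3 : m ∈ mm N (n + 1) := mem_mm.2 ⟨⟨h1, by omega⟩, h3, by omega⟩
          unfold hh
          rw [if_pos g2, if_pos g3]
          obtain ⟨i1, i2, i3⟩ := ratio (by have := hB.Z2; omega) g2
          have hZ : (2 : ℝ) ≤ ZZ N := by exact_mod_cast hB.Z2
          have i4 : 0 < Real.log ((n : ℝ) / m) := Real.log_pos (by linarith)
          have hm0 : (0 : ℝ) < m := by exact_mod_cast h1
          have i5 : Real.log ((n : ℝ) / m) ≤ Real.log (((n + 1 : ℕ) : ℝ) / m) := by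
            apply Real.log_le_log (by linarith)
            apply div_le_div_of_nonneg_right _ hm0.le
            push_cast
            linarith
          refine mul_le_mul_of_nonneg_left ?_ hB.L.le
          apply one_div_le_one_div_of_le (by positivity)
          exact mul_le_mul_of_nonneg_left i5 hm0.le) (hh_le hB m) N
      have h6 := hh_nonneg hB m N
      have h7 : 8 * ((1 : ℝ) / m) = 2 * (4 / m) := by ring
      rw [h7]
      linarith
    calc ∑ n ∈ range N, |Wt N (n + 1) - Wt N n|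
        ≤ ∑ n ∈ range N, ∑ m ∈ mm N N, |hh N m (n + 1) - hh N m n| := by
          refine sum_le_sum fun n hn => ?_
          rw [mem_range] at hn
          rw [Wt_eq (by omega : n + 1 ≤ N), Wt_eq (by omega : n ≤ N), ← sum_sub_distrib]
          exact abs_sum_le_sum_abs _ _
      _ = ∑ m ∈ mm N N, ∑ n ∈ range N, |hh N m (n + 1) - hh N m n| := sum_comm
      _ ≤ ∑ m ∈ mm N N, 8 * ((1 : ℝ) / m) := sum_le_sum hm
      _ = 8 * ∑ m ∈ mm N N, (1 : ℝ) / m := by rw [mul_sum]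
      _ ≤ 8 * 16 := mul_le_mul_of_nonneg_left ((sum_inv_le hB le_rfl).trans hsq) (by norm_num)
      _ = 128 := by norm_num

end Pool.Agent.R453.GS
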