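import Pool.Agent.R453.GS.Wt1

/-!
Project GS (helper460), job WTD: upper bound for the density of the rough numbers.
-/

set_option autoImplicit false

namespace Pool.Agent.R453.GS

open Finset Filter Topology

lemma le_floor_pow {N m : ℕ} {a : ℝ} (h : (m : ℝ) ≤ (N : ℝ) ^ a) : m ≤ ⌊(N : ℝ) ^ a⌋₊ := Nat.le_floor h

lemma log_le_of_le_floor {N m : ℕ} {a : ℝ} (ha : 0 < a) (hN : 2 ≤ N) (hm : 1 ≤ m) (h : m ≤ ⌊(N : ℝ) ^ a⌋₊) :
    Real.log m ≤ a * Real.log N :=
  (Real.log_le_log (by exact_mod_cast hm) (by exact_mod_cast h)).trans (log_floor ha hN).2.1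

/-- eventually all numerical conditions -/
lemma ev_all (B : ℕ) : ∀ᶠ N : ℕ in atTop, Big N ∧ 1 ≤ Real.log N ∧ B * Real.log (Real.log N) ≤ 1 / 5000 * Real.log N ∧
    (3 / 10 - 1 / 5000) * Real.log N ≤ Real.log (ZZ N) ∧ ((ZZ N : ℕ) : ℝ) < (N : ℝ) / Real.log N ^ B ∧
    SP (3 / 10) (7 / 20) N ≤ 0.15436 ∧ SP (7 / 20) (2 / 5) N ≤ 0.13374 ∧ SP (2 / 5) (9 / 20) N ≤ 0.11799 ∧
    SP (9 / 20) (1 / 2) N ≤ 0.10557 := by
  have h1 := sum_pow (α := 3 / 10) (β := 7 / 20) (by norm_num) (by norm_num) (ε := 0.0002) (by norm_num)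
  have h2 := sum_pow (α := 7 / 20) (β := 2 / 5) (by norm_num) (by norm_num) (ε := 0.0002) (by norm_num)
  have h3 := sum_pow (α := 2 / 5) (β := 9 / 20) (by norm_num) (by norm_num) (ε := 0.0002) (by norm_num)
  have h4 := sum_pow (α := 9 / 20) (β := 1 / 2) (by norm_num) (by norm_num) (ε := 0.0002) (by norm_num)
  have hLT : Tendsto (fun N : ℕ => Real.log (N : ℝ)) atTop atTop :=
    Real.tendsto_log_atTop.comp tendsto_natCast_atTop_atTop
  have h5 : ∀ᶠ L : ℝ in atTop, B * Real.log L ≤ 1 / 5000 * L := by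
    have h6 := Real.isLittleO_log_id_atTop.bound (show (0 : ℝ) < 1 / (5000 * (B + 1)) by positivity)
    filter_upwards [h6, eventually_ge_atTop 1] with L h7 h8
    have h9 : 0 ≤ Real.log L := Real.log_nonneg h8
    rw [Real.norm_of_nonneg h9, id, Real.norm_of_nonneg (by linarith)] at h7
    have h10 : (B + 1 : ℝ) * Real.log L ≤ 1 / 5000 * L := by
      calc (B + 1 : ℝ) * Real.log L ≤ (B + 1 : ℝ) * (1 / (5000 * (B + 1)) * L) :=
            mul_le_mul_of_nonneg_left h7 (by positivity)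
        _ = 1 / 5000 * L := by field_simp
    linarith
  filter_upwards [big, hLT.eventually_ge_atTop 10000, hLT.eventually h5, h1, h2, h3, h4] with N hB hL hBL h1 h2 h3 h4
  have l1 := log76
  have l2 := log87
  have l3 := log98
  have l4 := log109
  norm_num at l1 l2 l3 l4 h1 h2 h3 h4
  have hZl := (log_floor (γ := 3 / 10) (by norm_num) hB.two)
  have hZZ : Real.log (ZZ N) = Real.log (⌊(N : ℝ) ^ (3 / 10 : ℝ)⌋₊ : ℝ) := rfl
  have hN0 : (0 : ℝ) < N := by exact_mod_cast (by have := hB.two; omega : 0 < N)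
  refine ⟨hB, by linarith, hBL, ?_, ?_, ?_, ?_, ?_, ?_⟩
  · rw [hZZ]
    linarith [hZl.2.2]
  · have hL0 : 0 < Real.log N := by linarith
    have hz0 : (0 : ℝ) < ZZ N := by exact_mod_cast (by have := hB.Z2; omega : 0 < ZZ N)
    have h8 : Real.log (ZZ N) < Real.log ((N : ℝ) / Real.log N ^ B) := by
      rw [Real.log_div hN0.ne' (by positivity), Real.log_pow, hZZ]
      linarith [hZl.2.1]
    exact (Real.log_lt_log_iff hz0 (by positivity)).1 h8
  · unfold SP PP
    norm_num
    linarith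
  · unfold SP PP
    norm_num
    linarith
  · unfold SP PP
    norm_num
    linarith
  · unfold SP PP
    norm_num
    linarith

/-- a summand with one prime -/
lemma one_term {N n m : ℕ} {b : ℝ} (hb0 : 0 < b) (hb : b ≤ 1 / 2) (hN : 2 ≤ N) (hL : 0 < Real.log N) (hm : 1 ≤ m)
    (hn : 1 ≤ n) (hln : (1 - 1 / 5000) * Real.log N ≤ Real.log n) (h : m ≤ ⌊(N : ℝ) ^ b⌋₊) :
    1 / ((m : ℝ) * Real.log ((n : ℝ) / m)) ≤ 1 / ((1 - 1 / 5000 - b) * Real.log N) * (1 / m) := by
  have h1 := log_le_of_le_floor hb0 hN hm h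
  have hm0 : (0 : ℝ) < m := by exact_mod_cast hm
  have hn0 : (0 : ℝ) < n := by exact_mod_cast hn
  have h2 : (1 - 1 / 5000 - b) * Real.log N ≤ Real.log ((n : ℝ) / m) := by
    rw [Real.log_div hn0.ne' hm0.ne']
    linarith
  have h3 : 0 < (1 - 1 / 5000 - b) * Real.log N := mul_pos (by linarith) hL
  rw [one_div_mul_one_div]
  apply one_div_le_one_div_of_le (by positivity)
  have := mul_le_mul_of_nonneg_left h2 hm0.le
  linarith

theorem wtd : WtdStm := by
  intro B
  obtain ⟨N₀, hN₀⟩ := eventually_atTop.1 (ev_all B)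
  refine ⟨N₀, fun N hN n hn hnN => ?_⟩
  obtain ⟨hB, hL1, hBL, hZl, hZn, s1, s2, s3, s4⟩ := hN₀ N hN
  have hL0 : 0 < Real.log N := hB.L
  have hN0 : (0 : ℝ) < N := by exact_mod_cast (by have := hB.two; omega : 0 < N)
  have hZn' : ZZ N < n := by exact_mod_cast hZn.trans_le hnN
  have hn0 : 0 < n := by omega
  have hnR : (0 : ℝ) < n := by exact_mod_cast hn0
  have hln : (1 - 1 / 5000) * Real.log N ≤ Real.log n := by
    have h1 := Real.log_le_log (by positivity) hnN
    rw [Real.log_div hN0.ne' (by positivity), Real.log_pow] at h1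
    linarith
  have hln2 : Real.log n ≤ Real.log N := Real.log_le_log hnR (by exact_mod_cast hn)
  have hln0 : 0 < Real.log n := by nlinarith
  set g : ℕ → ℝ := fun m => 1 / ((m : ℝ) * Real.log ((n : ℝ) / m)) with hg
  have hg0 : ∀ m ∈ mm N n, 0 ≤ g m := by
    intro m hm
    obtain ⟨h1, h2, h3⟩ := ratio (by have := hB.Z2; omega) hm
    have hZ : (2 : ℝ) ≤ ZZ N := by exact_mod_cast hB.Z2
    have : 0 ≤ Real.log ((n : ℝ) / m) := Real.log_nonneg (by linarith)
    show 0 ≤ 1 / ((m : ℝ) * Real.log ((n : ℝ) / m))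
    positivity
  have h1m : 1 ∈ mm N n := by
    rw [mem_mm]
    refine ⟨⟨le_rfl, hn0⟩, by simp, ?_⟩
    simp only [Nat.primeFactors_one, sup_empty, bot_eq_zero', zero_le, sup_of_le_right, one_mul]
    exact hZn'
  have hg1 : g 1 = 1 / Real.log n := by
    simp only [hg, Nat.cast_one, one_mul, div_one]
  constructor
  · unfold Wt
    have h2 : g 1 ≤ ∑ m ∈ mm N n, g m := single_le_sum hg0 h1m
    calc (1 : ℝ) ≤ Real.log N * (1 / Real.log n) := by
          rw [mul_one_div, le_div_iff₀ hln0]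
          linarith
      _ ≤ Real.log N * ∑ m ∈ mm N n, g m := mul_le_mul_of_nonneg_left (by rw [← hg1]; exact h2) hL0.le
  · -- the part with one prime
    set c : ℝ → ℝ := fun b => 1 / ((1 - 1 / 5000 - b) * Real.log N) with hc
    have hc0 : ∀ b : ℝ, b ≤ 1 / 2 → 0 ≤ c b := by
      intro b hb
      have : 0 < (1 - 1 / 5000 - b) * Real.log N := mul_pos (by linarith) hL0
      show 0 ≤ 1 / ((1 - 1 / 5000 - b) * Real.log N)
      positivity
    set A2 := (mm N n).filter Nat.Prime with hA2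
    have hA2s : ∑ m ∈ A2, g m ≤ c (7 / 20) * SP (3 / 10) (7 / 20) N + c (2 / 5) * SP (7 / 20) (2 / 5) N +
        c (9 / 20) * SP (2 / 5) (9 / 20) N + c (1 / 2) * SP (9 / 20) (1 / 2) N := by
      have hsub : A2 ⊆ PP (3 / 10) (7 / 20) N ∪ PP (7 / 20) (2 / 5) N ∪ PP (2 / 5) (9 / 20) N ∪
          PP (9 / 20) (1 / 2) N := by
        intro m hm
        rw [hA2, mem_filter] at hm
        obtain ⟨hm, hp⟩ := hm
        have hZ : ZZ N < m := (mem_mm.1 hm).2.1 m (Nat.mem_primeFactors.2 ⟨hp, dvd_rfl, hp.pos.ne'⟩)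
        have hmm : m * m < n := by
          refine lt_of_le_of_lt ?_ (mem_mm.1 hm).2.2
          refine Nat.mul_le_mul_left _ (le_trans ?_ (le_max_left _ _))
          exact Finset.le_sup (f := id) (Nat.mem_primeFactors.2 ⟨hp, dvd_rfl, hp.pos.ne'⟩)
        have hup : m ≤ ⌊(N : ℝ) ^ (1 / 2 : ℝ)⌋₊ := by
          apply Nat.le_floor
          rw [← Real.sqrt_eq_rpow]
          apply Real.le_sqrt_of_sq_le
          have : ((m * m : ℕ) : ℝ) < N := by exact_mod_cast lt_of_lt_of_le hmm hn
          push_cast at this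
          nlinarith
        unfold ZZ at hZ
        unfold PP
        simp only [mem_union, mem_filter, mem_Ioc]
        rcases Nat.lt_or_ge ⌊(N : ℝ) ^ (9 / 20 : ℝ)⌋₊ m with h | h
        · exact Or.inr ⟨⟨h, hup⟩, hp⟩
        rcases Nat.lt_or_ge ⌊(N : ℝ) ^ (2 / 5 : ℝ)⌋₊ m with h' | h'
        · exact Or.inl (Or.inr ⟨⟨h', h⟩, hp⟩)
        rcases Nat.lt_or_ge ⌊(N : ℝ) ^ (7 / 20 : ℝ)⌋₊ m with h'' | h''
        · exact Or.inl (Or.inl (Or.inr ⟨⟨h'', h'⟩, hp⟩))
        · exact Or.inl (Or.inl (Or.inl ⟨⟨hZ, h''⟩, hp⟩))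
      set u : ℕ → ℝ := fun m => (if m ∈ PP (3 / 10) (7 / 20) N then c (7 / 20) * (1 / m) else 0) +
        (if m ∈ PP (7 / 20) (2 / 5) N then c (2 / 5) * (1 / m) else 0) +
        (if m ∈ PP (2 / 5) (9 / 20) N then c (9 / 20) * (1 / m) else 0) +
        (if m ∈ PP (9 / 20) (1 / 2) N then c (1 / 2) * (1 / m) else 0) with hu
      have hpos : ∀ (b : ℝ) (m : ℕ), b ≤ 1 / 2 → 0 ≤ c b * (1 / (m : ℝ)) := fun b m hb =>
        mul_nonneg (hc0 b hb) (by positivity)
      have hpart : ∀ (a b : ℝ) (m : ℕ), b ≤ 1 / 2 →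
          0 ≤ (if m ∈ PP a b N then c b * (1 / (m : ℝ)) else 0) := by
        intro a b m hb
        split_ifs
        · exact hpos b m hb
        · exact le_rfl
      have hu1 : ∀ m ∈ A2, g m ≤ u m := by
        intro m hm
        have hm' := hsub hm
        rw [hA2, mem_filter] at hm
        have hm1 : 1 ≤ m := hm.2.pos
        have key : ∀ a b : ℝ, 0 < b → b ≤ 1 / 2 → m ∈ PP a b N →
            g m ≤ (if m ∈ PP a b N then c b * (1 / (m : ℝ)) else 0) := by
          intro a b hb0 hb hmem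
          rw [if_pos hmem]
          unfold PP at hmem
          rw [mem_filter, mem_Ioc] at hmem
          exact one_term hb0 hb hB.two hL0 hm1 hn0 hln hmem.1.2
        have p1 := hpart (3 / 10) (7 / 20) m (by norm_num)
        have p2 := hpart (7 / 20) (2 / 5) m (by norm_num)
        have p3 := hpart (2 / 5) (9 / 20) m (by norm_num)
        have p4 := hpart (9 / 20) (1 / 2) m (by norm_num)
        simp only [mem_union] at hm'
        simp only [hu]
        rcases hm' with ((h | h) | h) | h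
        · have := key _ _ (by norm_num) (by norm_num) h
          linarith
        · have := key _ _ (by norm_num) (by norm_num) h
          linarith
        · have := key _ _ (by norm_num) (by norm_num) h
          linarith
        · have := key _ _ (by norm_num) (by norm_num) h
          linarith
      have hsum : ∀ a b : ℝ, b ≤ 1 / 2 →
          ∑ m ∈ A2, (if m ∈ PP a b N then c b * (1 / (m : ℝ)) else 0) ≤ c b * SP a b N := by
        intro a b hb
        rw [← sum_filter]
        unfold SP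
        rw [mul_sum]
        apply sum_le_sum_of_subset_of_nonneg
        · intro m hm
          exact (mem_filter.1 hm).2
        · intro m _ _
          exact hpos b m hb
      refine (sum_le_sum hu1).trans ?_
      simp only [hu, sum_add_distrib]
      have q1 := hsum (3 / 10) (7 / 20) (by norm_num)
      have q2 := hsum (7 / 20) (2 / 5) (by norm_num)
      have q3 := hsum (2 / 5) (9 / 20) (by norm_num)
      have q4 := hsum (9 / 20) (1 / 2) (by norm_num)
      linarith
    -- the part with two primes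
    set A3 := (mm N n).filter (fun m => ¬ m.Prime ∧ m ≠ 1) with hA3
    have hA3s : ∑ m ∈ A3, g m ≤ 1 / ((3 / 10 - 1 / 5000) * Real.log N) * SP (3 / 10) (7 / 20) N ^ 2 := by
      have himg : A3.image fac ⊆ (PP (3 / 10) (7 / 20) N) ×ˢ (PP (3 / 10) (7 / 20) N) := by
        intro x hx
        rw [mem_image] at hx
        obtain ⟨m, hm, rfl⟩ := hx
        rw [hA3, mem_filter] at hm
        obtain ⟨hm, hnp, hn1⟩ := hm
        rcases shape hB hn hm with h | ⟨h1, h2, h3⟩ | ⟨p, q, h1, h2, h3, h4, h5, h6, h7, h8⟩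
        · exact absurd h hn1
        · exact absurd h1 hnp
        · have e : fac m = (p, q) := by
            unfold fac
            rw [h2, h1, Nat.mul_div_cancel_left _ h3.pos]
          have hq : q ≤ ⌊(N : ℝ) ^ (7 / 20 : ℝ)⌋₊ := by
            apply Nat.le_floor
            have k1 : (N : ℝ) ^ (3 / 10 : ℝ) < p := by
              have k2 : (N : ℝ) ^ (3 / 10 : ℝ) < ((ZZ N : ℕ) : ℝ) + 1 := Nat.lt_floor_add_one _
              have k3 : ((ZZ N : ℕ) : ℝ) + 1 ≤ p := by exact_mod_cast h5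
              linarith
            have k4 : (p : ℝ) * q * q < N := by exact_mod_cast lt_of_lt_of_le h8 hn
            have k5 : 0 < (N : ℝ) ^ (3 / 10 : ℝ) := Real.rpow_pos_of_pos hN0 _
            have k6 : (N : ℝ) ^ (3 / 10 : ℝ) * ((N : ℝ) ^ (7 / 20 : ℝ)) ^ 2 = N := by
              rw [← Real.rpow_natCast, ← Real.rpow_mul hN0.le, ← Real.rpow_add hN0]
              norm_num
            by_contra hcon
            push Not at hcon
            have k7 : 0 ≤ (N : ℝ) ^ (7 / 20 : ℝ) := Real.rpow_nonneg hN0.le _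
            have k8 : ((N : ℝ) ^ (7 / 20 : ℝ)) ^ 2 ≤ (q : ℝ) ^ 2 := by nlinarith
            have k9 : (N : ℝ) ^ (3 / 10 : ℝ) * ((N : ℝ) ^ (7 / 20 : ℝ)) ^ 2 ≤ p * (q : ℝ) ^ 2 :=
              mul_le_mul k1.le k8 (by positivity) (by positivity)
            nlinarith
          rw [e, mem_product]
          unfold PP
          rw [mem_filter, mem_filter, mem_Ioc, mem_Ioc]
          unfold ZZ at h5 h6
          exact ⟨⟨⟨h5, h7.trans hq⟩, h3⟩, ⟨h6, hq⟩, h4⟩
      have h1 : ∀ m ∈ A3, g m ≤ 1 / ((3 / 10 - 1 / 5000) * Real.log N) * ((1 : ℝ) / (fac m).1 * (1 / (fac m).2)) := by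
        intro m hm
        rw [hA3, mem_filter] at hm
        obtain ⟨i1, i2, i3⟩ := ratio (by have := hB.Z2; omega) hm.1
        have hZ : (2 : ℝ) ≤ ZZ N := by exact_mod_cast hB.Z2
        have i4 := Real.log_le_log (by linarith) i3.le
        have hm0 : (0 : ℝ) < m := by exact_mod_cast i1
        rw [one_div_mul_one_div ((fac m).1 : ℝ), ← Nat.cast_mul, fac_mul, one_div_mul_one_div]
        show 1 / ((m : ℝ) * Real.log ((n : ℝ) / m)) ≤ _
        apply one_div_le_one_div_of_le (by positivity)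
        have := mul_le_mul_of_nonneg_left (hZl.trans i4) hm0.le
        linarith
      refine (sum_le_sum h1).trans ?_
      rw [← mul_sum]
      apply mul_le_mul_of_nonneg_left _ (by positivity)
      rw [← sum_image (f := fun x : ℕ × ℕ => (1 : ℝ) / x.1 * (1 / x.2)) (fun a _ b _ h => fac_inj h)]
      refine (sum_le_sum_of_subset_of_nonneg himg fun _ _ _ => by positivity).trans ?_
      rw [sum_product]
      simp_rw [← mul_sum]
      rw [← sum_mul]
      unfold SP
      rw [sq]
    have hsplit : ∑ m ∈ mm N n, g m ≤ g 1 + ∑ m ∈ A2, g m + ∑ m ∈ A3, g m := by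
      have hsub : mm N n ⊆ ({1} ∪ A2) ∪ A3 := by
        intro m hm
        rw [mem_union, mem_union, mem_singleton, hA2, hA3, mem_filter, mem_filter]
        by_cases h1 : m = 1
        · exact Or.inl (Or.inl h1)
        by_cases h2 : m.Prime
        · exact Or.inl (Or.inr ⟨hm, h2⟩)
        · exact Or.inr ⟨hm, h2, h1⟩
      have hall : ∀ m ∈ ({1} ∪ A2) ∪ A3, m ∈ mm N n := by
        intro m hm
        rw [mem_union, mem_union, mem_singleton, hA2, hA3, mem_filter, mem_filter] at hm
        rcases hm with (h | h) | h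
        · rw [h]; exact h1m
        · exact h.1
        · exact h.1
      calc ∑ m ∈ mm N n, g m ≤ ∑ m ∈ ({1} ∪ A2) ∪ A3, g m :=
            sum_le_sum_of_subset_of_nonneg hsub fun m hm _ => hg0 m (hall m hm)
        _ ≤ ∑ m ∈ ({1} ∪ A2), g m + ∑ m ∈ A3, g m := by
            rw [← sum_union_inter]
            have : 0 ≤ ∑ m ∈ ({1} ∪ A2) ∩ A3, g m := sum_nonneg fun m hm =>
              hg0 m (hall m (mem_union_left _ (mem_inter.1 hm).1))
            linarith
        _ ≤ (∑ m ∈ ({1} : Finset ℕ), g m + ∑ m ∈ A2, g m) + ∑ m ∈ A3, g m := by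
            rw [← sum_union_inter (s₁ := {1})]
            have : 0 ≤ ∑ m ∈ ({1} : Finset ℕ) ∩ A2, g m := sum_nonneg fun m hm =>
              hg0 m (hall m (mem_union_left _ (mem_union_left _ (mem_inter.1 hm).1)))
            linarith
        _ = g 1 + ∑ m ∈ A2, g m + ∑ m ∈ A3, g m := by rw [sum_singleton]
    have hW : Wt N n = Real.log N * ∑ m ∈ mm N n, g m := rfl
    rw [hW]
    have hfin : Real.log N * ∑ m ∈ mm N n, g m ≤ Real.log N * (1 / Real.log n) +
        Real.log N * (c (7 / 20) * SP (3 / 10) (7 / 20) N + c (2 / 5) * SP (7 / 20) (2 / 5) N +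
        c (9 / 20) * SP (2 / 5) (9 / 20) N + c (1 / 2) * SP (9 / 20) (1 / 2) N) +
        Real.log N * (1 / ((3 / 10 - 1 / 5000) * Real.log N) * SP (3 / 10) (7 / 20) N ^ 2) := by
      rw [← mul_add, ← mul_add]
      apply mul_le_mul_of_nonneg_left _ hL0.le
      rw [hg1] at hsplit
      linarith
    refine hfin.trans ?_
    have f1 : Real.log N * (1 / Real.log n) ≤ 1.00021 := by
      rw [mul_one_div, div_le_iff₀ hln0]
      nlinarith
    have fc : ∀ b s t : ℝ, b ≤ 1 / 2 → s ≤ t → Real.log N * (c b * s) ≤ t / (1 - 1 / 5000 - b) := by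
      intro b s t hb hst
      have e : Real.log N * (c b * s) = s / (1 - 1 / 5000 - b) := by
        have h1 : 1 - 1 / 5000 - b ≠ 0 := by
          have : 0 < 1 - 1 / 5000 - b := by linarith
          exact this.ne'
        show Real.log N * (1 / ((1 - 1 / 5000 - b) * Real.log N) * s) = s / (1 - 1 / 5000 - b)
        field_simp
      rw [e]
      exact div_le_div_of_nonneg_right hst (by linarith)
    have g1 := fc (7 / 20) _ _ (by norm_num) s1
    have g2 := fc (2 / 5) _ _ (by norm_num) s2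
    have g3 := fc (9 / 20) _ _ (by norm_num) s3
    have g4 := fc (1 / 2) _ _ (by norm_num) s4
    have g5 : Real.log N * (1 / ((3 / 10 - 1 / 5000) * Real.log N) * SP (3 / 10) (7 / 20) N ^ 2) ≤
        0.15436 ^ 2 / (3 / 10 - 1 / 5000) := by
      have e : Real.log N * (1 / ((3 / 10 - 1 / 5000) * Real.log N) * SP (3 / 10) (7 / 20) N ^ 2) =
          SP (3 / 10) (7 / 20) N ^ 2 / (3 / 10 - 1 / 5000) := by
        field_simp
      rw [e]
      apply div_le_div_of_nonneg_right _ (by norm_num)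
      have := SP_nonneg (3 / 10) (7 / 20) N
      nlinarith
    norm_num at g1 g2 g3 g4 g5 f1 ⊢
    linarith

end Pool.Agent.R453.GS
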